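import Mathlib

set_option autoImplicit false

namespace Pool.Agent.Results.MP_5f370d_co.SixCover

/-- A plane convex body: compact, convex, with nonempty interior. -/
def IsBody (K : Set (EuclideanSpace ℝ (Fin 2))) : Prop :=
  IsCompact K ∧ Convex ℝ K ∧ (interior K).Nonempty

/-- `K` is covered by `m` homothetic copies `x i + l i • K` with all ratios in `(0, 1/2)`. -/
def CoverableBelowHalf (m : ℕ) (K : Set (EuclideanSpace ℝ (Fin 2))) : Prop :=
  ∃ (x : Fin m → EuclideanSpace ℝ (Fin 2)) (l : Fin m → ℝ), (∀ i, 0 < l i ∧ l i < 1 / 2) ∧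
    K ⊆ ⋃ i, (fun k => x i + l i • k) '' K

theorem result : ∃ K : Set (EuclideanSpace ℝ (Fin 2)), IsBody K ∧ CoverableBelowHalf 6 K := by
  let K : Set (EuclideanSpace ℝ (Fin 2)) :=
    {p | 0 ≤ p 0 ∧ 0 ≤ p 1 ∧ 2 * p 0 + p 1 ≤ 6 ∧ p 0 + 2 * p 1 ≤ 6}
  have c0 : Continuous fun p : EuclideanSpace ℝ (Fin 2) => p 0 := by fun_prop
  have c1 : Continuous fun p : EuclideanSpace ℝ (Fin 2) => p 1 := by fun_prop
  have c2 : Continuous fun p : EuclideanSpace ℝ (Fin 2) => 2 * p 0 + p 1 := by fun_prop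
  have c3 : Continuous fun p : EuclideanSpace ℝ (Fin 2) => p 0 + 2 * p 1 := by fun_prop
  refine ⟨K, ⟨?_, ?_, ?_⟩, ?_⟩
  · apply Metric.isCompact_of_isClosed_isBounded
    · exact (isClosed_le continuous_const c0).inter ((isClosed_le continuous_const c1).inter
        ((isClosed_le c2 continuous_const).inter (isClosed_le c3 continuous_const)))
    · refine (Metric.isBounded_closedBall (x := 0) (r := 5)).subset ?_
      rintro p ⟨h1, h2, h3, h4⟩
      rw [mem_closedBall_zero_iff, EuclideanSpace.norm_eq, Fin.sum_univ_two]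
      apply Real.sqrt_le_iff.mpr
      refine ⟨by norm_num, ?_⟩
      simp only [Real.norm_eq_abs, sq_abs]
      nlinarith
  · rintro p ⟨h1, h2, h3, h4⟩ q ⟨k1, k2, k3, k4⟩ a b ha hb hab
    simp only [K, Set.mem_ofPred_eq, PiLp.add_apply, PiLp.smul_apply, smul_eq_mul]
    refine ⟨by positivity, by positivity, by nlinarith, by nlinarith⟩
  · have ho : IsOpen {p : EuclideanSpace ℝ (Fin 2) |
        0 < p 0 ∧ 0 < p 1 ∧ 2 * p 0 + p 1 < 6 ∧ p 0 + 2 * p 1 < 6} :=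
      (isOpen_lt continuous_const c0).inter ((isOpen_lt continuous_const c1).inter
        ((isOpen_lt c2 continuous_const).inter (isOpen_lt c3 continuous_const)))
    refine ⟨!₂[1, 1], interior_maximal ?_ ho ?_⟩
    · rintro p ⟨h1, h2, h3, h4⟩
      exact ⟨h1.le, h2.le, h3.le, h4.le⟩
    · simp only [Set.mem_ofPred_eq]
      norm_num
  · refine ⟨![!₂[0, 0], !₂[12 / 7, 0], !₂[0, 12 / 7], !₂[20 / 21, 0], !₂[0, 20 / 21],
      !₂[22 / 21, 22 / 21]], fun _ => 10 / 21, fun _ => by norm_num, ?_⟩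
    rintro p ⟨h1, h2, h3, h4⟩
    have key : ∀ a b : ℝ, a ≤ p 0 → b ≤ p 1 → 2 * p 0 + p 1 ≤ 2 * a + b + 20 / 7 →
        p 0 + 2 * p 1 ≤ a + 2 * b + 20 / 7 →
        p ∈ (fun k => !₂[a, b] + (10 / 21 : ℝ) • k) '' K := by
      intro a b k1 k2 k3 k4
      refine ⟨!₂[21 / 10 * (p 0 - a), 21 / 10 * (p 1 - b)], ?_, ?_⟩
      · simp only [K, Set.mem_ofPred_eq]
        refine ⟨?_, ?_, ?_, ?_⟩ <;> simp <;> linarith
      · ext i
        fin_cases i <;> simp <;> ring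
    rw [Set.mem_iUnion]
    by_cases a1 : 12 / 7 ≤ p 0 ∧ p 0 + 2 * p 1 ≤ 32 / 7
    · exact ⟨1, key (12 / 7) 0 a1.1 h2 (by linarith) (by linarith [a1.2])⟩
    by_cases a2 : 12 / 7 ≤ p 1 ∧ 2 * p 0 + p 1 ≤ 32 / 7
    · exact ⟨2, key 0 (12 / 7) h1 a2.1 (by linarith [a2.2]) (by linarith)⟩
    by_cases a3 : 22 / 21 ≤ p 0 ∧ 22 / 21 ≤ p 1
    · exact ⟨5, key (22 / 21) (22 / 21) a3.1 a3.2 (by linarith) (by linarith)⟩
    rw [not_and_or] at a1 a2 a3
    rcases le_total (p 1) (p 0) with hxy | hxy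
    · by_cases a4 : 20 / 21 ≤ p 0
      · refine ⟨3, key (20 / 21) 0 a4 h2 ?_ ?_⟩
        all_goals rcases a1 with a1 | a1 <;> rcases a3 with a3 | a3 <;> linarith
      · exact ⟨0, key 0 0 h1 h2 (by linarith) (by linarith)⟩
    · by_cases a5 : 20 / 21 ≤ p 1
      · refine ⟨4, key 0 (20 / 21) h1 a5 ?_ ?_⟩
        all_goals rcases a2 with a2 | a2 <;> rcases a3 with a3 | a3 <;> linarith
      · exact ⟨0, key 0 0 h1 h2 (by linarith) (by linarith)⟩

end Pool.Agent.Results.MP_5f370d_co.SixCover
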